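import Pool.Agent.V60.LD.HallCount

/-!
# The abscissas of the integral points of the Mordell curves with large abscissas

The number of the `|x|` of the integral points `(x, y)` of `y ^ 2 = x ^ 3 + D`, `D ≠ 0`, with `32 |D| ≤ |x|`, from
`Pool.Agent.V60.Hall.count` of the starting library (the proof of `mem_E` is that of the starting file `AdditiveValues`,
repeated here to keep the closure small).
-/

set_option autoImplicit false

namespace Pool.Agent.T9h59.HM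

/-- the exceptional `|x|` -/
def Exc : Set ℝ := {t : ℝ | ∃ D x y : ℤ, D ≠ 0 ∧ y ^ 2 = x ^ 3 + D ∧ 32 * |D| ≤ |x| ∧ |(x : ℝ)| = t}

lemma mem_E {d x y : ℤ} (hd : d ≠ 0) (h : y ^ 2 = x ^ 3 + d) (hx : 32 * |d| ≤ |x|) :
    x.natAbs ∈ Pool.Agent.V60.Hall.E := by
  have hd1 : 1 ≤ |d| := Int.one_le_abs hd
  have hx0 : 0 < x := by
    by_contra hcon
    push Not at hcon
    -- `x ≤ 0`: then `|d| ≥ |x| ^ 3`
    obtain ⟨z, hz⟩ : ∃ z : ℤ, z = -x := ⟨_, rfl⟩
    have hz0 : 0 ≤ z := by omega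
    have e : x = -z := by omega
    have e2 : d = y ^ 2 + z ^ 3 := by
      rw [e] at h
      have : (-z) ^ 3 = -(z ^ 3) := by ring
      rw [this] at h
      linarith
    have h3 : 0 ≤ z ^ 3 := by positivity
    have h4 : z ≤ z ^ 3 := by
      rcases hz0.eq_or_lt with h0 | h0
      · rw [← h0]; norm_num
      · have h1 : 1 ≤ z := h0
        exact le_self_pow₀ h1 (by norm_num)
    have h5 : 0 ≤ y ^ 2 := sq_nonneg y
    have h6 : |d| = d := abs_of_nonneg (by linarith)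
    have h7 : |x| = z := by rw [e, abs_neg, abs_of_nonneg hz0]
    rw [h6, h7] at hx
    rw [h6] at hd1
    linarith
  refine ⟨y.natAbs, ?_, ?_⟩
  · rw [Int.natCast_natAbs, Int.natCast_natAbs, sq_abs, abs_of_pos hx0]
    intro h1
    apply hd
    linarith
  · rw [Int.natCast_natAbs, Int.natCast_natAbs, sq_abs, abs_of_pos hx0]
    have h1 : y ^ 2 - x ^ 3 = d := by linarith
    rw [h1]
    rw [abs_of_pos hx0] at hx
    exact hx

/-- **The count.** -/
theorem count (ε : ℝ) (hε : 0 < ε) : ∃ C : ℝ, ∀ X : ℝ, 1 ≤ X →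
    {t | t ∈ Exc ∧ t ≤ X}.Finite ∧ ({t | t ∈ Exc ∧ t ≤ X}.ncard : ℝ) ≤ C * X ^ (5 / 6 + ε) := by
  obtain ⟨C, hC⟩ := Pool.Agent.V60.Hall.count ε hε
  refine ⟨C, fun X hX => ?_⟩
  obtain ⟨h1, h2⟩ := hC X hX
  have hsub : {t : ℝ | t ∈ Exc ∧ t ≤ X} ⊆
      (fun n : ℕ => (n : ℝ)) '' {t : ℕ | t ∈ Pool.Agent.V60.Hall.E ∧ (t : ℝ) ≤ X} := by
    rintro t ⟨⟨D, x, y, hD, hxy, hx, rfl⟩, ht⟩
    have e : ((x.natAbs : ℕ) : ℝ) = |(x : ℝ)| := by rw [Nat.cast_natAbs, Int.cast_abs]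
    exact ⟨x.natAbs, ⟨mem_E hD hxy hx, by rw [e]; exact ht⟩, e⟩
  refine ⟨(h1.image _).subset hsub, le_trans ?_ h2⟩
  exact_mod_cast (Set.ncard_le_ncard hsub (h1.image _)).trans (Set.ncard_image_le h1)

end Pool.Agent.T9h59.HM
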